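import Pool.Agent.H.MP_bc4532_gt.Defs
import Pool.Agent.H.MP_19623d_co.A

namespace Pool.Agent.H.MP_bc4532_gt

open Set Metric ContinuousMap

theorem cell_closed {Y : Type} (s : Finset Y) : IsClosed (cell s) := by
  unfold cell
  simp only [setOf_and, setOf_forall]
  refine (isClosed_iInter fun y => isClosed_le continuous_const (continuous_apply y)).inter
    ((isClosed_iInter fun y => isClosed_iInter fun _ =>
      isClosed_eq (continuous_apply y) continuous_const).inter
      (isClosed_eq (by fun_prop) continuous_const))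

theorem vr_closed (Y : Type) [PseudoMetricSpace Y] [Finite Y] (r : ℝ) : IsClosed (vrSet Y r) := by
  have : vrSet Y r = ⋃ s : {s : Finset Y // IsSimplex r s}, cell s.1 := by
    ext w
    simp [vrSet]
  rw [this]
  exact isClosed_iUnion_of_finite fun s => cell_closed s.1

theorem top_eq (Y : Type) [PseudoMetricSpace Y] [Finite Y] (r : ℝ) :
    vrTop Y r = instTopologicalSpaceSubtype := by
  apply le_antisymm
  · refine iSup_le fun s => ?_
    rw [← continuous_iff_coinduced_le]
    exact continuous_subtype_val.subtype_mk _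
  · intro U hU
    rw [← isClosed_compl_iff]
    have h : ∀ s : {s : Finset Y // IsSimplex r s}, IsClosed (Subtype.val ''
        {w : cell s.1 | (⟨w.1, s.1, s.2, w.2⟩ : vrSet Y r) ∉ U}) := fun s => by
      refine (cell_closed s.1).isClosedEmbedding_subtypeVal.isClosedMap _ ?_
      have := (isOpen_iSup_iff.1 hU) s
      rw [isOpen_coinduced] at this
      exact this.isClosed_compl
    have h2 := (isClosed_iUnion_of_finite h).preimage
      (continuous_subtype_val (p := fun w => w ∈ vrSet Y r))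
    convert h2 using 1
    ext ⟨w, s, hs, hw⟩
    simp only [mem_compl_iff, mem_preimage, mem_iUnion, mem_image, mem_setOf_eq]
    constructor
    · intro h
      exact ⟨⟨s, hs⟩, ⟨w, hw⟩, h, rfl⟩
    · rintro ⟨s', w', h, rfl⟩
      exact h

variable {E : Type} [NormedAddCommGroup E] [NormedSpace ℝ E] [FiniteDimensional ℝ E]

def inc (E : Type) [NormedAddCommGroup E] : C({x : E // ‖x‖ = 1}, {x : E // x ≠ 0}) :=
  ⟨fun x => ⟨x.1, fun h => by have := x.2; rw [h] at this; simp at this⟩,
    continuous_subtype_val.subtype_mk _⟩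

theorem not_null (u : {x : E // x ≠ 0}) : ¬ (inc E).Homotopic (const _ u) := by
  rintro ⟨H⟩
  classical
  let n : E → {x : E // ‖x‖ = 1} := fun x => if h : x = 0 then
    ⟨‖u.1‖⁻¹ • u.1, norm_smul_inv_norm u.2⟩ else ⟨‖x‖⁻¹ • x, norm_smul_inv_norm h⟩
  have hn : ContinuousOn n {x | 1 / 2 ≤ ‖x‖} := by
    rw [Topology.IsInducing.subtypeVal.continuousOn_iff]
    refine ContinuousOn.congr (f := fun x => ‖x‖⁻¹ • x)
      ((continuous_norm.continuousOn.inv₀ fun x (hx : 1 / 2 ≤ ‖x‖) => ne_of_gt (by linarith)).smul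
        continuousOn_id) fun x (hx : 1 / 2 ≤ ‖x‖) => ?_
    have : x ≠ 0 := by
      rintro rfl
      norm_num at hx
    simp [n, this]
  let G : E → E := fun x => if ‖x‖ ≤ 1 / 2 then u.1 else
    (H (projIcc 0 1 zero_le_one (2 - 2 * ‖x‖), n x)).1
  have hG : Continuous G := by
    refine continuous_if_le continuous_norm continuous_const continuousOn_const ?_ fun x hx => ?_
    · refine continuous_subtype_val.comp_continuousOn (H.continuous.comp_continuousOn
        (ContinuousOn.prodMk (Continuous.continuousOn ?_) hn))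
      exact continuous_projIcc.comp (by fun_prop)
    · rw [hx, projIcc_of_right_le _ (by norm_num)]
      exact congrArg Subtype.val (H.apply_one (n x)).symm
  obtain ⟨x, hx⟩ := Pool.Agent.H.MP_19623d_co.noretr G hG fun x hx => by
    have : x ≠ 0 := by
      rintro rfl
      norm_num at hx
    simp only [G]
    rw [if_neg (by rw [hx]; norm_num), hx, projIcc_of_le_left _ (by norm_num)]
    refine (congrArg Subtype.val (H.apply_zero (n x))).trans ?_
    simp [inc, n, this, hx]
  simp only [G] at hx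
  split_ifs at hx
  · exact u.2 hx
  · exact Subtype.property (p := fun x : E => x ≠ 0) _ hx

theorem line {K : Type} [TopologicalSpace K] (f g : C(K, {x : E // x ≠ 0}))
    (h : ∀ k, ∀ t ∈ Icc (0 : ℝ) 1, (1 - t) • (f k).1 + t • (g k).1 ≠ 0) : f.Homotopic g :=
  ⟨⟨⟨fun z => ⟨(1 - z.1.1) • (f z.2).1 + z.1.1 • (g z.2).1, h _ _ z.1.2⟩,
    Continuous.subtype_mk (by fun_prop) _⟩, fun k => Subtype.ext (by simp),
    fun k => Subtype.ext (by simp)⟩⟩

theorem null {ι X : Type} [Fintype ι] [Fintype X] (hd : Fintype.card X + 1 < Fintype.card ι)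
    {K : Set (X → ℝ)} (hK : IsClosed K) (F : C(K, {x : ι → ℝ // ‖x‖ = 1})) :
    ∃ u, ((inc _).comp F).Homotopic (const _ u) := by
  obtain ⟨g, hg⟩ := ContinuousMap.exists_restrict_eq hK
    ((⟨Subtype.val, continuous_subtype_val⟩ : C({x : ι → ℝ // ‖x‖ = 1}, ι → ℝ)).comp F)
  have hg' : ∀ k : K, g k.1 = (F k).1 := fun k => congrArg (fun φ : C(K, ι → ℝ) => φ k) hg
  obtain ⟨P, hP, hPg, -⟩ := g.continuous.exists_contDiff_approx 1 (ε := fun _ => 1)
    continuous_const fun _ => one_pos
  have hd2 := (contDiff_fst.smul (hP.comp contDiff_snd) :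
    ContDiff ℝ 1 fun z : ℝ × (X → ℝ) => z.1 • P z.2).dense_compl_range_of_finrank_lt_finrank
    (by simp; omega)
  obtain ⟨u, hu⟩ := hd2.nonempty
  have hu' : ∀ (t : ℝ) w, t • P w ≠ u := fun t w h => hu ⟨(t, w), h⟩
  have h1 : ∀ k : K, ∀ t ∈ Icc (0 : ℝ) 1, (1 - t) • (F k).1 + t • P k.1 ≠ 0 := by
    intro k t ht h
    have e : (F k).1 = t • ((F k).1 - P k.1) := by
      rw [smul_sub, ← sub_eq_zero, ← h]
      module
    have h2 := hPg k.1
    rw [hg', dist_comm, dist_eq_norm] at h2
    have h3 := (F k).2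
    rw [e, norm_smul, Real.norm_of_nonneg ht.1] at h3
    nlinarith [ht.1, ht.2, norm_nonneg ((F k).1 - P k.1)]
  have hP0 : ∀ k : K, P k.1 ≠ 0 := fun k => by simpa using h1 k 1 (by simp)
  let Q : C(K, {x : ι → ℝ // x ≠ 0}) := ⟨fun k => ⟨P k.1, hP0 k⟩,
    (hP.continuous.comp continuous_subtype_val).subtype_mk _⟩
  refine ⟨⟨u, fun h => hu' 0 0 (by simp [h])⟩, (line _ Q h1).trans (line _ _ fun k t ht h => ?_)⟩
  change (1 - t) • P k.1 + t • u = 0 at h
  rcases eq_or_ne t 0 with rfl | h0
  · exact hP0 k (by simpa using h)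
  · refine hu' (-(t⁻¹ * (1 - t))) k.1 ?_
    have : u = t⁻¹ • (t • u) := by rw [smul_smul, inv_mul_cancel₀ h0, one_smul]
    rw [this, eq_neg_of_add_eq_zero_right h]
    module

theorem no_equiv {ι X A : Type} [Fintype ι] [Fintype X] [TopologicalSpace A]
    (hd : Fintype.card X + 1 < Fintype.card ι) {K : Set (X → ℝ)} (hK : IsClosed K)
    (ψ : C({x : ι → ℝ // ‖x‖ = 1}, A)) (φ : C(A, {x : ι → ℝ // ‖x‖ = 1}))
    (h : ∀ x, φ (ψ x) = x) (e : HomotopyEquiv A K) : False := by
  obtain ⟨u, hu⟩ := null hd hK (φ.comp e.invFun)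
  refine not_null u ?_
  have h1 := ((Homotopic.refl ((inc _).comp φ)).comp e.left_inv).comp (Homotopic.refl ψ)
  have h2 := hu.comp (Homotopic.refl (e.toFun.comp ψ))
  have e1 : (((inc _).comp φ).comp (ContinuousMap.id A)).comp ψ = inc _ := by
    ext x
    simp [h]
  rw [e1] at h1
  exact h1.symm.trans h2

end Pool.Agent.H.MP_bc4532_gt
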