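import Mathlib

namespace Pool.Agent.H.MP_bc4532_gt

open Set

def IsSimplex {Y : Type} [PseudoMetricSpace Y] (r : ℝ) (s : Finset Y) : Prop :=
  s.Nonempty ∧ Metric.diam (s : Set Y) < r

def cell {Y : Type} (s : Finset Y) : Set (Y → ℝ) :=
  {w | (∀ y, 0 ≤ w y) ∧ (∀ y, y ∉ s → w y = 0) ∧ ∑ y ∈ s, w y = 1}

def vrSet (Y : Type) [PseudoMetricSpace Y] (r : ℝ) : Set (Y → ℝ) :=
  {w | ∃ s : Finset Y, IsSimplex r s ∧ w ∈ cell s}

def vrTop (Y : Type) [PseudoMetricSpace Y] (r : ℝ) : TopologicalSpace (vrSet Y r) :=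
  ⨆ s : {s : Finset Y // IsSimplex r s},
    TopologicalSpace.coinduced (fun w : cell s.1 => (⟨w.1, s.1, s.2, w.2⟩ : vrSet Y r))
      inferInstance

def VR (Y : Type) [PseudoMetricSpace Y] (r : ℝ) : TopCat :=
  @TopCat.of (vrSet Y r) (vrTop Y r)

end Pool.Agent.H.MP_bc4532_gt
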