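import Pool.Agent.H.MP_bc4532_gt.A

namespace Pool.Agent.H.MP_bc4532_gt

open Set Metric ContinuousMap

theorem diam_lt {Y : Type} [PseudoMetricSpace Y] {r : ℝ} {s : Finset Y} (hs : s.Nonempty)
    (h : ∀ x ∈ s, ∀ y ∈ s, dist x y < r) : IsSimplex r s := by
  obtain ⟨z, hz, hm⟩ := Finset.exists_max_image (s ×ˢ s) (fun z => dist z.1 z.2) (hs.product hs)
  rw [Finset.mem_product] at hz
  refine ⟨hs, lt_of_le_of_lt (diam_le_of_forall_dist_le dist_nonneg fun x hx y hy =>
    hm (x, y) (Finset.mem_product.2 ⟨hx, hy⟩)) (h _ hz.1 _ hz.2)⟩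

theorem retr {X ι : Type} [PseudoMetricSpace X] [Fintype X] [Fintype ι] {r : ℝ} (idx : X → ι)
    (sg : X → ℝ) (a b : ι → X) (hs : ∀ p, sg p * sg p = 1) (ia : ∀ i, idx (a i) = i)
    (ib : ∀ i, idx (b i) = i) (sa : ∀ i, sg (a i) = 1) (sb : ∀ i, sg (b i) = -1)
    (h1 : ∀ p q, dist p q < r → idx p = idx q → sg p = sg q)
    (haa : ∀ i j, dist (a i) (a j) < r) (hbb : ∀ i j, dist (b i) (b j) < r)
    (hab : ∀ i j, i ≠ j → dist (a i) (b j) < r) :
    ∃ (ψ : C({x : ι → ℝ // ‖x‖ = 1}, vrSet X r)) (φ : C(vrSet X r, {x : ι → ℝ // ‖x‖ = 1})),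
      ∀ x, φ (ψ x) = x := by
  classical
  let L : (X → ℝ) →ₗ[ℝ] (ι → ℝ) :=
    Fintype.linearCombination ℝ fun p => sg p • (Pi.single (idx p) 1 : ι → ℝ)
  have hL : ∀ w : vrSet X r, L w.1 ≠ 0 := by
    rintro ⟨w, s, hs', w0, w1, w2⟩ h
    obtain ⟨p, hp, hp0⟩ : ∃ p ∈ s, w p ≠ 0 := by
      by_contra hc
      push Not at hc
      rw [Finset.sum_eq_zero hc] at w2
      exact zero_ne_one w2
    have h2 : sg p * L w (idx p) = 0 := by
      rw [show L w = 0 from h]
      simp
    simp only [L, Fintype.linearCombination_apply, Finset.sum_apply, Finset.mul_sum,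
      Pi.smul_apply, smul_eq_mul] at h2
    refine absurd h2 (ne_of_gt (Finset.sum_pos' (fun q _ => ?_) ⟨p, Finset.mem_univ _, ?_⟩))
    · by_cases hq : q ∈ s
      · by_cases hi : idx p = idx q
        · rw [← h1 p q ((dist_le_diam_of_mem s.finite_toSet.isBounded hp hq).trans_lt hs'.2) hi, hi]
          have := w0 q
          have := hs p
          simp only [Pi.single_eq_same]
          nlinarith
        · simp [Pi.single_eq_of_ne hi]
      · simp [w1 q hq]
    · have := (w0 p).lt_of_ne' hp0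
      have := hs p
      simp only [Pi.single_eq_same]
      nlinarith
  let ψ0 : (ι → ℝ) → X → ℝ := fun v => ∑ i, (max (v i) 0 • (Pi.single (a i) 1 : X → ℝ) +
    max (-v i) 0 • (Pi.single (b i) 1 : X → ℝ))
  have hψ0 : ∀ v, L (ψ0 v) = v := by
    intro v
    simp only [ψ0, map_sum, map_add, map_smul, L, Fintype.linearCombination_apply_single, ia, ib,
      sa, sb, one_smul]
    ext j
    simp only [Finset.sum_apply, Pi.add_apply, Pi.smul_apply, smul_eq_mul]
    rw [Finset.sum_eq_single j (fun i _ hi => by simp [Pi.single_eq_of_ne hi.symm]) (by simp)]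
    simp only [Pi.single_eq_same]
    rcases le_total (v j) 0 with h | h <;> simp [h]
  have hS : ∀ v : {x : ι → ℝ // ‖x‖ = 1}, 0 < ∑ i, |v.1 i| := by
    intro v
    by_contra hc
    have h0 := (Finset.sum_eq_zero_iff_of_nonneg fun i _ => abs_nonneg (v.1 i)).1
      (le_antisymm (not_lt.1 hc) (Finset.sum_nonneg fun i _ => abs_nonneg (v.1 i)))
    have : v.1 = 0 := funext fun i => abs_eq_zero.1 (h0 i (Finset.mem_univ i))
    have h2 := v.2
    rw [this] at h2
    simp at h2
  have hsum : ∀ v, ∑ p, ψ0 v p = ∑ i, |v i| := by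
    intro v
    simp only [ψ0, Finset.sum_apply, Pi.add_apply, Pi.smul_apply, smul_eq_mul]
    rw [Finset.sum_comm]
    refine Finset.sum_congr rfl fun i _ => ?_
    rw [Finset.sum_add_distrib, ← Finset.mul_sum, ← Finset.mul_sum]
    simp only [Finset.sum_pi_single', Finset.mem_univ, if_true]
    rcases le_total (v i) 0 with h | h <;> simp [h, abs_of_nonneg, abs_of_nonpos]
  have hsup : ∀ v p, ψ0 v p ≠ 0 → ∃ i, (p = a i ∧ 0 < v i) ∨ (p = b i ∧ v i < 0) := by
    intro v p h
    simp only [ψ0, Finset.sum_apply] at h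
    obtain ⟨i, -, hi⟩ := Finset.exists_ne_zero_of_sum_ne_zero h
    refine ⟨i, ?_⟩
    by_contra hc
    push Not at hc
    apply hi
    simp only [Pi.add_apply, Pi.smul_apply, smul_eq_mul]
    have e1 : max (v i) 0 * (Pi.single (a i) 1 : X → ℝ) p = 0 := by
      by_cases h : p = a i
      · simp [hc.1 h]
      · simp [Pi.single_eq_of_ne h]
    have e2 : max (-v i) 0 * (Pi.single (b i) 1 : X → ℝ) p = 0 := by
      by_cases h : p = b i
      · simp [hc.2 h]
      · simp [Pi.single_eq_of_ne h]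
    rw [e1, e2, add_zero]
  have hmem : ∀ v : {x : ι → ℝ // ‖x‖ = 1}, (∑ i, |v.1 i|)⁻¹ • ψ0 v.1 ∈ vrSet X r := by
    intro v
    have e : ∑ p ∈ Finset.univ.filter fun p => ψ0 v.1 p ≠ 0, ψ0 v.1 p = ∑ i, |v.1 i| := by
      rw [Finset.sum_filter_ne_zero, hsum]
    refine ⟨Finset.univ.filter fun p => ψ0 v.1 p ≠ 0, diam_lt ?_ fun p hp q hq => ?_,
      fun p => ?_, fun p hp => ?_, ?_⟩
    · by_contra hc
      rw [Finset.not_nonempty_iff_eq_empty.1 hc] at e
      exact (hS v).ne (by simpa using e)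
    · obtain ⟨i, hi⟩ := hsup _ p (Finset.mem_filter.1 hp).2
      obtain ⟨j, hj⟩ := hsup _ q (Finset.mem_filter.1 hq).2
      rcases hi with ⟨rfl, hi⟩ | ⟨rfl, hi⟩ <;> rcases hj with ⟨rfl, hj⟩ | ⟨rfl, hj⟩
      · exact haa _ _
      · exact hab _ _ (by rintro rfl; linarith)
      · rw [dist_comm]
        exact hab _ _ (by rintro rfl; linarith)
      · exact hbb _ _
    · refine mul_nonneg (inv_nonneg.2 (hS v).le) ?_
      simp only [ψ0, Finset.sum_apply, Pi.add_apply, Pi.smul_apply, smul_eq_mul]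
      refine Finset.sum_nonneg fun i _ => add_nonneg (mul_nonneg (le_max_right _ _) ?_)
        (mul_nonneg (le_max_right _ _) ?_) <;> simp only [Pi.single_apply] <;>
        split_ifs <;> norm_num
    · have : ψ0 v.1 p = 0 := by simpa using hp
      simp [this]
    · simp only [Pi.smul_apply, smul_eq_mul]
      rw [← Finset.mul_sum, e, inv_mul_cancel₀ (hS v).ne']
  have cL : Continuous fun w : vrSet X r => L w.1 :=
    L.continuous_of_finiteDimensional.comp continuous_subtype_val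
  refine ⟨⟨fun v => ⟨_, hmem v⟩, Continuous.subtype_mk ?_ _⟩,
    ⟨fun w => ⟨‖L w.1‖⁻¹ • L w.1, norm_smul_inv_norm (hL w)⟩, Continuous.subtype_mk ?_ _⟩,
    fun v => Subtype.ext ?_⟩
  · have c1 : Continuous fun v : ι → ℝ => ∑ i, |v i| := by fun_prop
    have c2 : Continuous ψ0 := by
      simp only [ψ0]
      fun_prop
    exact ((c1.comp continuous_subtype_val).inv₀ fun v => (hS v).ne').smul
      (c2.comp continuous_subtype_val)
  · exact (cL.norm.inv₀ fun w => norm_ne_zero_iff.2 (hL w)).smul cL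
  · change ‖L ((∑ i, |v.1 i|)⁻¹ • ψ0 v.1)‖⁻¹ • L ((∑ i, |v.1 i|)⁻¹ • ψ0 v.1) = v.1
    rw [map_smul, hψ0, norm_smul, v.2, mul_one, Real.norm_of_nonneg (inv_nonneg.2 (hS v).le),
      inv_inv, smul_smul, mul_inv_cancel₀ (hS v).ne', one_smul]

theorem circ_lt {s t : ℝ} (h1 : |s - t| < 1) (h2 : |s - t| ≠ 1 / 2) :
    dist (s : UnitAddCircle) t < 1 / 2 := by
  rw [dist_eq_norm, ← AddCircle.coe_sub]
  generalize s - t = x at h1 h2
  have key : ∀ y : ℝ, |y| < 1 / 2 → ‖(y : UnitAddCircle)‖ < 1 / 2 := fun y hy => by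
    rw [(AddCircle.norm_coe_eq_abs_iff (1 : ℝ) one_ne_zero).2 (by simpa using hy.le)]
    exact hy
  rcases h2.lt_or_gt with h | h
  · exact key x h
  · rcases le_total 0 x with h0 | h0
    · rw [abs_of_nonneg h0] at h h1
      rw [← sub_add_cancel x 1, AddCircle.coe_add_period (1 : ℝ) (x - 1)]
      exact key _ (by rw [abs_lt]; constructor <;> linarith)
    · rw [abs_of_nonpos h0] at h h1
      rw [← AddCircle.coe_add_period (1 : ℝ) x]
      exact key _ (by rw [abs_lt]; constructor <;> linarith)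

noncomputable def rep (z : UnitAddCircle) : ℝ := (AddCircle.equivIco 1 0 z).1

theorem rep_mem (z : UnitAddCircle) : 0 ≤ rep z ∧ rep z < 1 := by
  simpa [rep] using (AddCircle.equivIco 1 0 z).2

theorem coe_rep (z : UnitAddCircle) : (rep z : UnitAddCircle) = z :=
  (AddCircle.equivIco 1 0).symm_apply_apply z

theorem rep_coe {t : ℝ} (h0 : 0 ≤ t) (h1 : t < 1) : rep (t : UnitAddCircle) = t :=
  congrArg Subtype.val ((AddCircle.equivIco 1 0).apply_symm_apply ⟨t, h0, by simpa using h1⟩)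

noncomputable def idx (z : UnitAddCircle) : ℝ := if rep z < 1 / 2 then rep z else rep z - 1 / 2

noncomputable def sg (z : UnitAddCircle) : ℝ := if rep z < 1 / 2 then 1 else -1

theorem idx_mem (z : UnitAddCircle) : idx z ∈ Ico (0 : ℝ) (1 / 2) := by
  have := rep_mem z
  unfold idx
  split_ifs with h <;> constructor <;> linarith

theorem sg_eq {z y : UnitAddCircle} (h : dist z y < 1 / 2) (hi : idx z = idx y) :
    sg z = sg y := by
  have key : ∀ z y : UnitAddCircle, rep z = rep y - 1 / 2 → dist y z = 1 / 2 := fun z y h => by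
    rw [← coe_rep z, ← coe_rep y, h, dist_eq_norm, ← AddCircle.coe_sub, sub_sub_cancel]
    simpa using AddCircle.norm_half_period_eq (1 : ℝ)
  unfold idx at hi
  unfold sg
  split_ifs at hi ⊢
  · rfl
  · rw [dist_comm, key _ _ hi] at h
    exact absurd h (lt_irrefl _)
  · rw [key _ _ hi.symm] at h
    exact absurd h (lt_irrefl _)
  · rfl

theorem main (N : Type) [MetricSpace N] [CompactSpace N] [Nonempty N] (ε : ℝ) (hε : 0 < ε) :
    ∃ X : Set (WithLp 2 (UnitAddCircle × N)), X.Finite ∧ (∀ p, ∃ x ∈ X, dist p x < ε) ∧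
      IsEmpty (HomotopyEquiv (VR X (1 / 2)) (VR (WithLp 2 (UnitAddCircle × N)) (1 / 2))) := by
  classical
  by_contra hc
  push Not at hc
  haveI : CompactSpace (WithLp 2 (UnitAddCircle × N)) :=
    (WithLp.homeomorphProd 2 UnitAddCircle N).symm.compactSpace
  obtain ⟨X, -, hX, hcov⟩ := finite_cover_balls_of_compact
    (isCompact_univ (X := WithLp 2 (UnitAddCircle × N))) hε
  have hd : ∀ p, ∃ x ∈ X, dist p x < ε := fun p => by simpa using hcov (mem_univ p)
  obtain ⟨x0, hx0, -⟩ := hd (WithLp.toLp 2 (0, Classical.arbitrary N))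
  haveI := hX.fintype
  obtain ⟨T, hT, hTc⟩ := (Ico_infinite (show (0 : ℝ) < 1 / 2 by norm_num)).exists_subset_card_eq
    (Fintype.card X + 2)
  let S : Finset ℝ := T ∪ hX.toFinset.image fun p => idx p.fst
  have hS : ∀ t ∈ S, t ∈ Ico (0 : ℝ) (1 / 2) := by
    intro t ht
    rcases Finset.mem_union.1 ht with h | h
    · exact hT h
    · obtain ⟨p, -, rfl⟩ := Finset.mem_image.1 h
      exact idx_mem _
  let X' : Set (WithLp 2 (UnitAddCircle × N)) := {p | idx p.fst ∈ S ∧ p.snd ∈ WithLp.snd '' X}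
  have hX' : X'.Finite := by
    refine (((S.finite_toSet.image (fun t : ℝ => (t : UnitAddCircle))).union
      (S.finite_toSet.image (fun t : ℝ => ((t + 1 / 2 : ℝ) : UnitAddCircle)))).prod
      (hX.image WithLp.snd)).image (WithLp.toLp 2) |>.subset fun p hp => ⟨p.ofLp, ⟨?_, hp.2⟩, rfl⟩
    have h := hp.1
    unfold idx at h
    split_ifs at h
    · exact Or.inl ⟨_, h, coe_rep _⟩
    · exact Or.inr ⟨_, h, by simp only [sub_add_cancel]; exact coe_rep _⟩
  haveI := hX'.fintype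
  obtain ⟨e⟩ := hc X hX hd
  obtain ⟨e'⟩ := hc X' hX' fun p => by
    obtain ⟨x, hx, h⟩ := hd p
    exact ⟨x, ⟨Finset.mem_union_right _ (Finset.mem_image_of_mem _ (hX.mem_toFinset.2 hx)),
      x, hx, rfl⟩, h⟩
  have e2 : @HomotopyEquiv (vrSet X' (1 / 2)) (vrSet X (1 / 2)) (vrTop _ _) (vrTop _ _) :=
    ContinuousMap.HomotopyEquiv.trans (X := VR X' (1 / 2)) (Z := VR X (1 / 2)) e' e.symm
  rw [top_eq, top_eq] at e2
  have ra : ∀ i : S, rep (i.1 : UnitAddCircle) = i.1 := fun i =>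
    rep_coe (hS _ i.2).1 (by linarith [(hS _ i.2).2])
  have rb : ∀ i : S, rep ((i.1 + 1 / 2 : ℝ) : UnitAddCircle) = i.1 + 1 / 2 := fun i =>
    rep_coe (by linarith [(hS _ i.2).1]) (by linarith [(hS _ i.2).2])
  have ia : ∀ i : S, idx (i.1 : UnitAddCircle) = i.1 := fun i => by
    rw [idx, ra, if_pos (hS _ i.2).2]
  have ib : ∀ i : S, idx ((i.1 + 1 / 2 : ℝ) : UnitAddCircle) = i.1 := fun i => by
    rw [idx, rb, if_neg (by linarith [(hS _ i.2).1]), add_sub_cancel_right]
  have dd : ∀ z y : UnitAddCircle, dist (WithLp.toLp 2 (z, x0.snd)) (WithLp.toLp 2 (y, x0.snd)) =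
      dist z y := fun z y => by
    rw [WithLp.prod_dist_eq_add (by norm_num)]
    simp only [WithLp.toLp_fst, WithLp.toLp_snd, dist_self, ENNReal.toReal_ofNat]
    rw [Real.zero_rpow two_ne_zero, add_zero, ← Real.rpow_mul dist_nonneg]
    norm_num
  obtain ⟨ψ, φ, h⟩ := retr (X := X') (ι := S) (r := 1 / 2) (fun p => ⟨idx p.1.fst, p.2.1⟩)
    (fun p => sg p.1.fst)
    (fun i => ⟨WithLp.toLp 2 ((i.1 : UnitAddCircle), x0.snd), (ia i).symm ▸ i.2, x0, hx0, rfl⟩)
    (fun i => ⟨WithLp.toLp 2 (((i.1 + 1 / 2 : ℝ) : UnitAddCircle), x0.snd), (ib i).symm ▸ i.2,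
      x0, hx0, rfl⟩)
    (fun p => by unfold sg; split_ifs <;> norm_num) (fun i => Subtype.ext (ia i))
    (fun i => Subtype.ext (ib i))
    (fun i => by
      change sg (i.1 : UnitAddCircle) = 1
      rw [sg, ra, if_pos (hS _ i.2).2])
    (fun i => by
      change sg ((i.1 + 1 / 2 : ℝ) : UnitAddCircle) = -1
      rw [sg, rb, if_neg (by linarith [(hS _ i.2).1])])
    (fun p q h hi => sg_eq ((WithLp.dist_fst_le p.1 q.1).trans_lt h) (congrArg Subtype.val hi))
    (fun i j => by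
      have h1 := hS _ i.2
      have h2 := hS _ j.2
      have : |i.1 - j.1| < 1 / 2 := by
        rw [abs_lt]
        constructor <;> linarith [h1.1, h1.2, h2.1, h2.2]
      exact (dd _ _).trans_lt (circ_lt (by linarith) this.ne))
    (fun i j => by
      have h1 := hS _ i.2
      have h2 := hS _ j.2
      have : |i.1 + 1 / 2 - (j.1 + 1 / 2)| < 1 / 2 := by
        rw [abs_lt]
        constructor <;> linarith [h1.1, h1.2, h2.1, h2.2]
      exact (dd _ _).trans_lt (circ_lt (by linarith) this.ne))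
    (fun i j hij => by
      have h1 := hS _ i.2
      have h2 := hS _ j.2
      have e : |i.1 - (j.1 + 1 / 2)| = j.1 + 1 / 2 - i.1 := by
        rw [abs_sub_comm, abs_of_nonneg (by linarith [h1.2, h2.1])]
      refine (dd _ _).trans_lt (circ_lt (by linarith [h1.1, h2.2]) fun h => hij ?_)
      exact Subtype.ext (by linarith))
  refine no_equiv ?_ (vr_closed X _) ψ φ h e2
  have := Finset.card_le_card (Finset.subset_union_left (s₁ := T)
    (s₂ := hX.toFinset.image fun p => idx p.fst))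
  rw [Fintype.card_coe]
  exact lt_of_lt_of_le (by omega) this

end Pool.Agent.H.MP_bc4532_gt
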